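import Pool.Agent.Y469.TR.Main
import Pool.Agent.Y469.TR.Sharp

/-!
# MP_dd155b_co: Ramsey numbers of trees, stronger forms of the Erdos-Graham question

The starting result `MP_dd155b_co/ErdosGraham` bounds `r(T; k)` by `k (m - 2) + 2`.  Here:
one colour works for all forests at once, the colours may have different sizes `m i`, the number of
colours may be arbitrary if only few of them occur at the average vertex (mean and local Ramsey
numbers), the host graph is arbitrary; and `k (m - 2) + 2` is the exact maximum of `r(T; k)` over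
the trees with `m` vertices if `m` is even or `k` is odd.
-/

set_option autoImplicit false

namespace Pool.Agent.Results.MP_dd155b_co.TreesMeanColourings

open Pool.Agent.Y469.TR (Sees Universal master circ rr)

/-- Every colouring `c` of the edges of the complete graph on `r` vertices with `k` colours
contains a monochromatic subgraph isomorphic to `H`: there are a colour `i` and an injective map
`f` from the vertices of `H` to the `r` vertices such that every edge of `H` is mapped to an edge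
of colour `i`. -/
def Arrows {W : Type} (H : SimpleGraph W) (k r : ℕ) : Prop :=
  ∀ c : Sym2 (Fin r) → Fin k, ∃ i : Fin k, ∃ f : W ↪ Fin r,
    ∀ a b : W, H.Adj a b → c s(f a, f b) = i

/-- The `k`-colour Ramsey number of `H`: the least `r` such that every colouring of the edges of
`K_r` with `k` colours contains a monochromatic copy of `H`. -/
noncomputable def ramsey {W : Type} (H : SimpleGraph W) (k : ℕ) : ℕ :=
  sInf {r | Arrows H k r}

theorem two_mul_top (N : ℕ) (inst : Fintype (⊤ : SimpleGraph (Fin N)).edgeSet) :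
    2 * (@SimpleGraph.edgeFinset (Fin N) ⊤ inst).card = N * (N - 1) := by
  have h1 := SimpleGraph.card_edgeFinset_top_eq_card_choose_two (V := Fin N)
  have h2 : (@SimpleGraph.edgeFinset (Fin N) ⊤ inst).card = N.choose 2 := by
    rw [Fintype.card_fin] at h1
    rw [← h1]
    exact congrArg Finset.card
      (congrArg (fun i => @SimpleGraph.edgeFinset (Fin N) ⊤ i) (Subsingleton.elim inst _))
  rw [h2, Nat.choose_two_right, Nat.two_mul_div_two_of_even (Nat.even_mul_pred_self N)]

open Classical in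
/-- mean colourings -/
theorem mean (N r m : ℕ) (κ : ℝ) (hm : 2 ≤ m) (hN : 0 < N) (hκ : κ * ((m : ℝ) - 2) < (N : ℝ) - 1)
    (c : Sym2 (Fin N) → Fin r)
    (hc : ∑ v : Fin N, ((Finset.univ.filter fun i => Sees ⊤ c v i).card : ℝ) ≤ κ * N) :
    ∃ i, Universal ⊤ c i m := by
  refine master ⊤ c (fun _ => m) (fun _ => hm) ?_
  refine lt_of_lt_of_eq ?_ (Eq.symm (two_mul_top N _))
  have h3 : ∑ v : Fin N, ∑ i with Sees (⊤ : SimpleGraph (Fin N)) c v i, (m - 2) < N * (N - 1) := by
    have h4 : ((∑ v : Fin N, ∑ i with Sees (⊤ : SimpleGraph (Fin N)) c v i, (m - 2) : ℕ) : ℝ) <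
        ((N * (N - 1) : ℕ) : ℝ) := by
      push_cast [Nat.cast_sub hm, Nat.cast_sub (show 1 ≤ N from hN)]
      simp only [Finset.sum_const, nsmul_eq_mul]
      rw [← Finset.sum_mul]
      have hN' : (0 : ℝ) < N := by exact_mod_cast hN
      have hm' : (0 : ℝ) ≤ (m : ℝ) - 2 := by
        have : (2 : ℝ) ≤ m := by exact_mod_cast hm
        linarith
      calc _ ≤ κ * N * ((m : ℝ) - 2) := mul_le_mul_of_nonneg_right hc hm'
        _ = N * (κ * ((m : ℝ) - 2)) := by ring
        _ < N * ((N : ℝ) - 1) := mul_lt_mul_of_pos_left hκ hN'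
    exact_mod_cast h4
  exact h3

open Classical in
/-- a host graph with many edges -/
theorem host {V : Type} [Fintype V] (G : SimpleGraph V) (k : ℕ) (m : Fin k → ℕ)
    (hm : ∀ i, 2 ≤ m i) (h : (∑ i, (m i - 2)) * Fintype.card V < 2 * G.edgeFinset.card)
    (c : Sym2 V → Fin k) : ∃ i, Universal G c i (m i) := by
  refine master G c m hm (lt_of_le_of_lt ?_ h)
  calc ∑ v : V, ∑ i with Sees G c v i, (m i - 2) ≤ ∑ _v : V, ∑ i, (m i - 2) :=
        Finset.sum_le_sum fun v _ => Finset.sum_le_sum_of_subset (Finset.filter_subset _ _)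
    _ = (∑ i, (m i - 2)) * Fintype.card V := by
        rw [Finset.sum_const, Finset.card_univ, smul_eq_mul, mul_comm]

theorem off (k : ℕ) (m : Fin k → ℕ) (hm : ∀ i, 2 ≤ m i) (N : ℕ) (hN : ∑ i, (m i - 2) + 2 ≤ N)
    (c : Sym2 (Fin N) → Fin k) : ∃ i, Universal ⊤ c i (m i) := by
  classical
  refine host ⊤ k m hm ?_ c
  refine lt_of_lt_of_eq ?_ (Eq.symm (two_mul_top N _))
  rw [Fintype.card_fin, mul_comm]
  exact Nat.mul_lt_mul_of_pos_left (by omega) (by omega)

theorem arrows_of_le {m k N : ℕ} (hm : 2 ≤ m) (T : SimpleGraph (Fin m))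
    (hT : T.IsTree) (hN : k * (m - 2) + 2 ≤ N) : Arrows T k N := by
  intro c
  obtain ⟨i, hi⟩ := off k (fun _ => m) (fun _ => hm) N (by simpa using hN) c
  obtain ⟨f, hf⟩ := hi T hT.isAcyclic
  exact ⟨i, f, fun a b hab => (hf a b hab).2⟩

theorem arrows_mono {m k r N : ℕ} (T : SimpleGraph (Fin m)) (h : Arrows T k r) (hrN : r ≤ N) :
    Arrows T k N := by
  intro c
  obtain ⟨i, f, hf⟩ := h (fun e => c (e.map (Fin.castLE hrN)))
  refine ⟨i, f.trans (Fin.castLEEmb hrN), fun a b hab => ?_⟩
  have := hf a b hab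
  simpa using this

/-- a colouring of `K_N` in which every vertex has at most `d` neighbours in every colour has no
monochromatic star with `d + 1` edges -/
theorem not_arrows_star {k d N : ℕ} (c : Sym2 (Fin N) → Fin k)
    (hc : ∀ (x : Fin N) (i : Fin k), (Finset.univ.filter fun y => y ≠ x ∧ c s(x, y) = i).card ≤ d) :
    ¬ Arrows (SimpleGraph.starGraph (0 : Fin (d + 2))) k N := by
  intro h
  obtain ⟨i, f, hf⟩ := h c
  have h1 := hc (f 0) i
  have h2 : ((Finset.univ.erase (0 : Fin (d + 2))).map f).card ≤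
      (Finset.univ.filter fun y => y ≠ f 0 ∧ c s(f 0, y) = i).card := by
    refine Finset.card_le_card fun y hy => ?_
    obtain ⟨a, ha, rfl⟩ := Finset.mem_map.1 hy
    have ha' : a ≠ 0 := Finset.ne_of_mem_erase ha
    refine Finset.mem_filter.2 ⟨Finset.mem_univ _, fun h => ha' (f.injective h), ?_⟩
    exact hf 0 a (by simp [SimpleGraph.starGraph_adj, ha'.symm])
  rw [Finset.card_map, Finset.card_erase_of_mem (Finset.mem_univ _), Finset.card_univ,
    Fintype.card_fin] at h2
  omega

theorem sharp (k m : ℕ) (hk : 1 ≤ k) (hm : 2 ≤ m) (hp : Even m ∨ Odd k) :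
    ∃ T : SimpleGraph (Fin m), T.IsTree ∧ ramsey T k = k * (m - 2) + 2 := by
  obtain ⟨d, rfl⟩ : ∃ d, m = d + 2 := ⟨m - 2, by omega⟩
  refine ⟨SimpleGraph.starGraph 0, SimpleGraph.isTree_starGraph 0, ?_⟩
  have hnot : ¬ Arrows (SimpleGraph.starGraph (0 : Fin (d + 2))) k (k * d + 1) := by
    rcases Nat.eq_zero_or_pos d with rfl | hd
    · rintro h
      obtain ⟨i, f, hf⟩ := h (fun _ => ⟨0, hk⟩)
      have := Fintype.card_le_of_embedding f
      simp at this
    · rcases Nat.even_or_odd d with hd2 | hd2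
      · obtain ⟨t, ht⟩ := hd2
        have ht' : d = 2 * t := by omega
        subst ht'
        obtain ⟨c, hc⟩ := circ k t hk (by omega)
        exact not_arrows_star c hc
      · have hk2 : Odd k := by
          rcases hp with h | h
          · exfalso
            have h2 : Even d := by
              have := (Nat.even_add.1 h).2 (by decide)
              exact this
            exact (Nat.not_even_iff_odd.2 hd2) h2
          · exact h
        obtain ⟨c, hc⟩ := rr k d (hk2.mul hd2)
        exact not_arrows_star c hc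
  have hup : Arrows (SimpleGraph.starGraph (0 : Fin (d + 2))) k (k * (d + 2 - 2) + 2) :=
    arrows_of_le hm _ (SimpleGraph.isTree_starGraph 0) le_rfl
  refine le_antisymm (Nat.sInf_le hup) ?_
  refine le_csInf ⟨_, hup⟩ fun r hr => ?_
  by_contra hcon
  exact hnot (arrows_mono _ hr (by simp at hcon ⊢; omega))

open Classical in
theorem result :
    -- the question as posed
    (∀ k : ℕ, 2 ≤ k → ∀ ε : ℝ, 0 < ε → ∃ m₀ : ℕ, ∀ m : ℕ, m₀ ≤ m →
      ∀ T : SimpleGraph (Fin m), T.IsTree →
        Arrows T k (ramsey T k) ∧ (ramsey T k : ℝ) ≤ (1 + ε) * k * m) ∧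
    -- the maximum over all trees with `m` vertices, `m` even or `k` odd
    (∀ k m : ℕ, 1 ≤ k → 2 ≤ m → Even m ∨ Odd k →
      IsGreatest {r | ∃ T : SimpleGraph (Fin m), T.IsTree ∧ ramsey T k = r} (k * (m - 2) + 2)) ∧
    -- different numbers of vertices, all forests in one colour
    (∀ (k : ℕ) (m : Fin k → ℕ), (∀ i, 2 ≤ m i) → ∀ N : ℕ, ∑ i, (m i - 2) + 2 ≤ N →
      ∀ c : Sym2 (Fin N) → Fin k, ∃ i, Universal ⊤ c i (m i)) ∧
    -- the same in every graph with sufficiently many edges
    (∀ (V : Type) [Fintype V] (G : SimpleGraph V) (k : ℕ) (m : Fin k → ℕ), (∀ i, 2 ≤ m i) →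
      (∑ i, (m i - 2)) * Fintype.card V < 2 * G.edgeFinset.card →
      ∀ c : Sym2 V → Fin k, ∃ i, Universal G c i (m i)) ∧
    -- any number `r` of colours, of which at most `κ` occur at the average vertex
    (∀ (N r m : ℕ) (κ : ℝ), 2 ≤ m → 0 < N → κ * ((m : ℝ) - 2) < (N : ℝ) - 1 →
      ∀ c : Sym2 (Fin N) → Fin r,
      ∑ v : Fin N, ((Finset.univ.filter fun i => Sees ⊤ c v i).card : ℝ) ≤ κ * N →
      ∃ i, Universal ⊤ c i m) ∧
    -- the common generalization
    (∀ (V C : Type) [Fintype V] [Fintype C] (G : SimpleGraph V) (c : Sym2 V → C) (m : C → ℕ),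
      (∀ i, 2 ≤ m i) → ∑ v : V, ∑ i with Sees G c v i, (m i - 2) < 2 * G.edgeFinset.card →
      ∃ i, Universal G c i (m i)) := by
  have key : ∀ k m : ℕ, 2 ≤ m → ∀ T : SimpleGraph (Fin m), T.IsTree →
      Arrows T k (ramsey T k) ∧ ramsey T k ≤ k * (m - 2) + 2 := by
    intro k m hm T hT
    have h2 : k * (m - 2) + 2 ∈ {r | Arrows T k r} := arrows_of_le hm T hT le_rfl
    exact ⟨Nat.sInf_mem ⟨_, h2⟩, Nat.sInf_le h2⟩
  refine ⟨?_, ?_, fun k m hm N hN c => off k m hm N hN c,
    fun V _ G k m hm h c => host G k m hm h c,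
    fun N r m κ hm hN hκ c hc => mean N r m κ hm hN hκ c hc,
    fun V C _ _ G c m hm h => master G c m hm h⟩
  · intro k hk ε hε
    refine ⟨2, fun m hm T hT => ?_⟩
    obtain ⟨h2, h3⟩ := key k m hm T hT
    refine ⟨h2, ?_⟩
    have h4 : ramsey T k ≤ k * m := by
      refine h3.trans ?_
      obtain ⟨j, rfl⟩ : ∃ j, m = j + 2 := ⟨m - 2, by omega⟩
      simp only [Nat.add_sub_cancel]
      nlinarith
    have h5 : (ramsey T k : ℝ) ≤ (k : ℝ) * m := by exact_mod_cast h4
    have h6 : (0 : ℝ) ≤ (k : ℝ) * m := by positivity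
    nlinarith [mul_nonneg hε.le h6]
  · intro k m hk hm hp
    refine ⟨sharp k m hk hm hp, ?_⟩
    rintro r ⟨T, hT, rfl⟩
    exact (key k m hm T hT).2

end Pool.Agent.Results.MP_dd155b_co.TreesMeanColourings
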